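import Pool.Agent.N783.PQ.Loc
import Pool.Agent.N446.M4.Mod

/-!
# Project PQ: the product formula for Hasse invariants
-/

set_option autoImplicit false

namespace Pool.Agent.N394.PQ

open Pool.Agent.N783.PQ
open Pool.Agent.N202.M4 (hasse hil)
open Pool.Agent.N446.M4

lemma pm_mul_self {a b : ℤ} (ha : a = 1 ∨ a = -1) (h : a = b) : a * b = 1 := by
  subst h
  rcases ha with h | h <;> rw [h] <;> norm_num

theorem prd : S_PRD := by
  classical
  intro n a b ha hb S hS hre hp ε hε hq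
  obtain ⟨S1, h1⟩ := hasse_prod (zl a) (zl_ne ha)
  obtain ⟨S2, h2⟩ := hasse_prod (zl b) (zl_ne hb)
  -- the local equalities
  have hre' : hasse (hv none) (zl a) = hasse (hv none) (zl b) := by
    have e1 := hasse_zl (F := ℝ) a
    have e2 := hasse_zl (F := ℝ) b
    rw [e1, e2] at hre
    exact hre
  have hp' : ∀ p : Nat.Primes, (p : ℕ) ∉ S →
      hasse (hv (some p)) (zl a) = hasse (hv (some p)) (zl b) := by
    intro p hpS
    have h3 := hp (p : ℕ) hpS
    rw [hasse_zl (F := ℚ_[(p : ℕ)]) a, hasse_zl (F := ℚ_[(p : ℕ)]) b] at h3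
    exact h3
  have hq' : ∀ p : Nat.Primes, (p : ℕ) ∈ S →
      hasse (hv (some p)) (zl a) = ε p * hasse (hv (some p)) (zl b) := by
    intro p hpS
    have h3 := hq (p : ℕ) hpS
    rw [hasse_zl (F := ℚ_[(p : ℕ)]) a, hasse_zl (F := ℚ_[(p : ℕ)]) b] at h3
    exact h3
  have hpmA : ∀ v, hasse (hv v) (zl a) = 1 ∨ hasse (hv v) (zl a) = -1 :=
    fun v => hasse_pm (hv_pm v) _
  have hpmB : ∀ v, hasse (hv v) (zl b) = 1 ∨ hasse (hv v) (zl b) = -1 :=
    fun v => hasse_pm (hv_pm v) _
  obtain ⟨j, hj⟩ : ∃ j : {q // q ∈ S} → Option Nat.Primes,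
      ∀ q, j q = some ⟨q.1, hS q.1 q.2⟩ := ⟨fun q => some ⟨q.1, hS q.1 q.2⟩, fun q => rfl⟩
  have hjinj : Function.Injective j := by
    intro q q' h
    rw [hj, hj] at h
    have h3 := congrArg Subtype.val (Option.some.inj h)
    exact Subtype.ext h3
  obtain ⟨J, hJ⟩ : ∃ J : Finset (Option Nat.Primes), J = S.attach.image j := ⟨_, rfl⟩
  obtain ⟨U, hU⟩ : ∃ U : Finset (Option Nat.Primes), U = (S1 ∪ S2) ∪ J := ⟨_, rfl⟩
  have e1 := h1 U (by rw [hU]; exact Finset.subset_union_left.trans Finset.subset_union_left)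
  have e2 := h2 U (by rw [hU]; exact Finset.subset_union_right.trans Finset.subset_union_left)
  have e3 : ∏ v ∈ U, (hasse (hv v) (zl a) * hasse (hv v) (zl b)) = 1 := by
    rw [Finset.prod_mul_distrib, e1, e2, one_mul]
  have e4 : ∏ v ∈ J, (hasse (hv v) (zl a) * hasse (hv v) (zl b)) = 1 := by
    rw [← e3]
    apply Finset.prod_subset
    · rw [hU]
      exact Finset.subset_union_right
    · intro v _ hvJ
      apply pm_mul_self (hpmA v)
      cases v with
      | none => exact hre'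
      | some p =>
        apply hp'
        intro hpS
        apply hvJ
        rw [hJ, Finset.mem_image]
        exact ⟨⟨(p : ℕ), hpS⟩, Finset.mem_attach _ _, by rw [hj]; rfl⟩
  rw [hJ, Finset.prod_image (fun _ _ _ _ h => hjinj h)] at e4
  have e5 : ∀ q ∈ S.attach, hasse (hv (j q)) (zl a) * hasse (hv (j q)) (zl b) = ε q.1 := by
    intro q _
    rw [hj, hq' ⟨q.1, hS q.1 q.2⟩ q.2]
    have h3 := pm_mul_self (hpmB (some ⟨q.1, hS q.1 q.2⟩)) rfl
    rw [mul_assoc, h3, mul_one]
  rw [Finset.prod_congr rfl e5, Finset.prod_attach S ε] at e4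
  have e6 : ∏ q ∈ S, ε q = ∏ q ∈ S, (if ε q = -1 then (-1 : ℤ) else 1) := by
    apply Finset.prod_congr rfl
    intro q hq
    split_ifs with h
    · exact h
    · rcases hε q hq with h3 | h3
      · exact h3
      · exact absurd h3 h
  rw [e6, Finset.prod_ite, Finset.prod_const, Finset.prod_const_one, mul_one] at e4
  exact (neg_one_pow_eq_one_iff_even (by norm_num)).mp e4

end Pool.Agent.N394.PQ
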